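import Pool.Agent.BEH.StmtsD

/-!
# BEH part D, row VOD
-/

namespace Pool.Agent.BEH.H42

open Set Filter Topology MeasureTheory
open Pool.Agent.BE01 Pool.Agent.BEL

theorem ball_pos (d : ℕ) : 0 < (volume : Measure (En d)).real (Metric.ball (0 : En d) 1) := by
  rw [measureReal_def]
  exact ENNReal.toReal_pos (Metric.measure_ball_pos _ _ one_pos).ne' measure_ball_lt_top.ne

/-- Row VOD. -/
theorem vod : VodStmt := by
  refine ⟨fun d hd => ?_, ?_⟩
  · have hd' : (0 : ℝ) < d := by exact_mod_cast hd
    refine ⟨mul_pos hd' (ball_pos d), fun x ρ hρ => ?_⟩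
    rw [Measure.addHaar_real_closedBall volume x hρ, finrank_euclideanSpace_fin, sphd]
    field_simp
  · rw [sphd, measureReal_def, EuclideanSpace.volume_ball_fin_two]
    simp [Real.pi_pos.le]

end Pool.Agent.BEH.H42
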